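import Pool.Agent.X233.AltRep.Gap

set_option autoImplicit false

namespace Pool.Agent.X233.AltRep
open Equiv Equiv.Perm Finset RC14
open scoped InnerProductSpace RealInnerProductSpace

variable {n : ℕ}

section Perm
variable {X : Type*} [Fintype X] [MulAction (Alt n) X]

/-- the permutation representation -/
noncomputable def prep (X : Type*) [Fintype X] [MulAction (Alt n) X] :
    Alt n →* (EuclideanSpace ℝ X ≃ₗᵢ[ℝ] EuclideanSpace ℝ X) where
  toFun g := LinearIsometryEquiv.piLpCongrLeft 2 ℝ ℝ (MulAction.toPerm g)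
  map_one' := by
    ext F y
    simp [LinearIsometryEquiv.piLpCongrLeft_apply]
  map_mul' g h := by
    ext F y
    simp [LinearIsometryEquiv.piLpCongrLeft_apply, mul_smul]

lemma prep_apply (g : Alt n) (F : EuclideanSpace ℝ X) (y : X) : prep X g F y = F (g⁻¹ • y) := by
  simp [prep, LinearIsometryEquiv.piLpCongrLeft_apply]

/-- functions with sum zero -/
def sumZero (X : Type*) [Fintype X] : Submodule ℝ (EuclideanSpace ℝ X) where
  carrier := {F | ∑ y, F y = 0}
  zero_mem' := by simp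
  add_mem' := by
    intro a b ha hb
    simp only [Set.mem_ofPred_eq, PiLp.add_apply, Finset.sum_add_distrib] at *
    rw [ha, hb, add_zero]
  smul_mem' := by
    intro c a ha
    simp only [Set.mem_ofPred_eq, PiLp.smul_apply, smul_eq_mul, ← Finset.mul_sum] at *
    rw [ha, mul_zero]

theorem gap_perm {k m t : ℕ} {x : Fin k → Alt n} {ε : ℝ}
    (hgap : ∀ f ∈ lowLevel n m, ∑ g, f g = 0 →
      ∑ g, f g * walk x f g ≤ (1 - ε) * ∑ g, f g ^ 2)
    (hm : 4 * t ≤ m) (hn : 4 * t + 5 ≤ n) [MulAction.IsPretransitive (Alt n) X]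
    (hd : Fintype.card X < 2 ^ (t + 1)) (F : X → ℝ) (hF : ∑ y, F y = 0) :
    ∑ y, F y * ((∑ i, (F (x i • y) + F ((x i)⁻¹ • y))) / (2 * k)) ≤ (1 - ε) * ∑ y, F y ^ 2 := by
  set v : EuclideanSpace ℝ X := WithLp.toLp 2 F with hv
  have h := gap_small hgap hm hn (prep X) (sumZero X) ?_ ?_ ?_ v hF
  · have e1 : ⟪v, Mop (prep X) x v⟫_ℝ =
        ∑ y, F y * ((∑ i, (F (x i • y) + F ((x i)⁻¹ • y))) / (2 * k)) := by
      rw [PiLp.inner_apply]
      refine Finset.sum_congr rfl fun y _ => ?_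
      rw [Mop_apply]
      simp only [PiLp.smul_apply, smul_eq_mul, RCLike.inner_apply,
        conj_trivial, WithLp.ofLp_sum, Finset.sum_apply, prep_apply, inv_inv, WithLp.ofLp_add,
        Pi.add_apply, hv]
      have e3 : ∑ i, (F ((x i)⁻¹ • y) + F (x i • y)) = ∑ i, (F (x i • y) + F ((x i)⁻¹ • y)) :=
        Finset.sum_congr rfl fun i _ => add_comm _ _
      rw [e3]
      ring
    have e2 : ‖v‖ ^ 2 = ∑ y, F y ^ 2 := by
      rw [EuclideanSpace.norm_sq_eq]
      simp [hv]
    rwa [e1, e2] at h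
  · intro g w hw
    change ∑ y, prep X g w y = 0
    simp_rw [prep_apply]
    exact (Equiv.sum_comp (MulAction.toPerm (g⁻¹)) (fun y => w y)).trans hw
  · intro w hw hinv
    have h1 : ∀ a b : X, w a = w b := by
      intro a b
      obtain ⟨g, rfl⟩ := MulAction.exists_smul_eq (Alt n) a b
      have := congrArg (fun u : EuclideanSpace ℝ X => u (g • a)) (hinv g)
      simp only [prep_apply, inv_smul_smul] at this
      exact this
    ext y
    have h2 : ∑ z : X, w z = Fintype.card X * w y := by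
      rw [Finset.sum_congr rfl fun z _ => h1 z y]
      simp
    have h3 : (Fintype.card X : ℝ) ≠ 0 := by
      have : Nonempty X := ⟨y⟩
      exact_mod_cast Fintype.card_ne_zero
    have h4 : ∑ z : X, w z = 0 := hw
    rw [h2] at h4
    exact (mul_eq_zero.1 h4).resolve_left h3
  · refine lt_of_le_of_lt (Submodule.finrank_le _) ?_
    rwa [finrank_euclideanSpace]

end Perm

section Cx
variable {V : Type*} [NormedAddCommGroup V] [InnerProductSpace ℂ V] [FiniteDimensional ℂ V]

/-- the gap for small unitary representations without invariant vectors -/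
theorem gap_unitary {k m t : ℕ} {x : Fin k → Alt n} {ε : ℝ}
    (hgap : ∀ f ∈ lowLevel n m, ∑ g, f g = 0 →
      ∑ g, f g * walk x f g ≤ (1 - ε) * ∑ g, f g ^ 2)
    (hm : 4 * t ≤ m) (hn : 4 * t + 5 ≤ n) (ρ : Alt n →* (V ≃ₗᵢ[ℂ] V))
    (hinv : ∀ w, (∀ g, ρ g w = w) → w = 0)
    (hd : 2 * Module.finrank ℂ V < 2 ^ (t + 1)) (v : V) :
    (⟪v, (1 / (2 * (k : ℂ))) • ∑ i, (ρ (x i) v + ρ (x i)⁻¹ v)⟫_ℂ).re ≤ (1 - ε) * ‖v‖ ^ 2 := by
  let _ : InnerProductSpace ℝ V := InnerProductSpace.rclikeToReal ℂ V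
  have hfd : FiniteDimensional ℝ V := FiniteDimensional.complexToReal V
  let ρ' : Alt n →* (V ≃ₗᵢ[ℝ] V) :=
    { toFun := fun g =>
        { toLinearEquiv := (ρ g).toLinearEquiv.restrictScalars ℝ
          norm_map' := (ρ g).norm_map }
      map_one' := by
        ext w
        change ρ 1 w = w
        rw [map_one]; rfl
      map_mul' := fun g h => by
        ext w
        change ρ (g * h) w = ρ g (ρ h w)
        rw [map_mul]; rfl }
  have h0 : ∀ g w, ρ' g w = ρ g w := fun _ _ => rfl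
  have h := gap_small hgap hm hn ρ' ⊤ (fun _ _ _ => Submodule.mem_top)
    (fun w _ hw => hinv w fun g => hw g) (by
      rw [finrank_top, ← Module.finrank_mul_finrank ℝ ℂ V, Complex.finrank_real_complex]
      exact hd) v Submodule.mem_top
  rw [Mop_apply] at h
  refine le_of_eq_of_le ?_ h
  change _ = (⟪v, (1 / (2 * (k : ℝ))) • ∑ i, (ρ (x i) v + ρ (x i)⁻¹ v)⟫_ℂ).re
  congr 2
  have : ((1 / (2 * (k : ℝ)) : ℝ) : ℂ) = 1 / (2 * (k : ℂ)) := by push_cast; rfl
  rw [← this]
  rfl

end Cx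

end Pool.Agent.X233.AltRep
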