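import Mathlib

/-!
Every nonzero real representation of dimension `< 2 ^ (t + 1)` of the alternating group of degree
`n ≥ 4 t + 5` has a nonzero vector fixed by the pointwise stabiliser of some set of `4 t` points.
-/

set_option autoImplicit false

namespace Pool.Agent.X233.AltRep
open Equiv Equiv.Perm Finset

variable {n : ℕ}

abbrev Al (n : ℕ) := alternatingGroup (Fin n)

noncomputable def psi (γ : Fin 4 ↪ Fin n) : alternatingGroup (Fin 4) →* Al n where
  toFun g := ⟨extendDomainHom γ.toEquivRange (g : Perm (Fin 4)), by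
    rw [mem_alternatingGroup]
    exact (sign_extendDomain _ _).trans (mem_alternatingGroup.1 g.2)⟩
  map_one' := by ext; simp
  map_mul' g h := by ext; simp

lemma psi_image (γ : Fin 4 ↪ Fin n) (g : alternatingGroup (Fin 4)) (i : Fin 4) :
    (psi γ g : Perm (Fin n)) (γ i) = γ ((g : Perm (Fin 4)) i) :=
  Equiv.Perm.viaFintypeEmbedding_apply_image (g : Perm (Fin 4)) γ i

lemma psi_out (γ : Fin 4 ↪ Fin n) (g : alternatingGroup (Fin 4)) (x : Fin n)
    (hx : ∀ i, x ≠ γ i) : (psi γ g : Perm (Fin n)) x = x :=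
  Equiv.Perm.viaFintypeEmbedding_apply_notMem_range (g : Perm (Fin 4)) γ
    (by rintro ⟨i, rfl⟩; exact hx i rfl)

def a4 : alternatingGroup (Fin 4) := ⟨swap 0 1 * swap 2 3, mem_alternatingGroup.2 (by decide)⟩
def b4 : alternatingGroup (Fin 4) := ⟨swap 0 2 * swap 1 3, mem_alternatingGroup.2 (by decide)⟩
def z4 : alternatingGroup (Fin 4) := ⟨swap 1 2 * swap 2 3, mem_alternatingGroup.2 (by decide)⟩

lemma a4_sq : a4 * a4 = 1 := by decide
lemma b4_sq : b4 * b4 = 1 := by decide
lemma ab4 : a4 * b4 = b4 * a4 := by decide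
lemma za4 : z4 * a4 = b4 * z4 := by decide
lemma zb4 : z4 * b4 = a4 * b4 * z4 := by decide
lemma az4 : a4 * z4 = z4 * (a4 * b4) := by decide

/-- elements of disjoint support commute -/
lemma psi_comm {γ γ' : Fin 4 ↪ Fin n} (h : ∀ i j, γ i ≠ γ' j) (g g' : alternatingGroup (Fin 4)) :
    psi γ g * psi γ' g' = psi γ' g' * psi γ g := by
  have hd : Disjoint (psi γ g : Perm (Fin n)) (psi γ' g' : Perm (Fin n)) := by
    intro x
    by_cases hx : ∃ i, x = γ i
    · obtain ⟨i, rfl⟩ := hx
      exact Or.inr (psi_out _ _ _ fun j => h i j)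
    · push Not at hx
      exact Or.inl (psi_out _ _ _ hx)
  exact Subtype.ext hd.commute.eq

/-! ### double transpositions generate -/

section DT
variable {α : Type*} [Fintype α] [DecidableEq α]

/-- the double transpositions -/
def DT (α : Type*) [DecidableEq α] : Set (Perm α) :=
  {σ | ∃ γ : Fin 4 ↪ α, σ = swap (γ 0) (γ 1) * swap (γ 2) (γ 3)}

omit [Fintype α] in
lemma mem_DT {a b c d : α} (h1 : a ≠ b) (h2 : a ≠ c) (h3 : a ≠ d) (h4 : b ≠ c) (h5 : b ≠ d)
    (h6 : c ≠ d) : swap a b * swap c d ∈ DT α := by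
  refine ⟨⟨![a, b, c, d], ?_⟩, rfl⟩
  intro i j hij
  fin_cases i <;> fin_cases j <;> simp_all [Ne.symm]

lemma pair_mem (hα : 5 ≤ Fintype.card α) {a b c d : α} (h1 : a ≠ b) (h2 : c ≠ d) :
    swap a b * swap c d ∈ Subgroup.closure (DT α) := by
  by_cases h : a ≠ c ∧ a ≠ d ∧ b ≠ c ∧ b ≠ d
  · exact Subgroup.subset_closure (mem_DT h1 h.1 h.2.1 h.2.2.1 h.2.2.2 h2)
  · have hc : ({a, b, c, d} : Finset α).card ≤ 3 := by
      by_contra hcon
      have h4 : 4 ≤ ({a, b, c, d} : Finset α).card := by omega
      apply h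
      refine ⟨?_, ?_, ?_, ?_⟩ <;> rintro rfl
      · have : ({a, b, a, d} : Finset α) = {a, b, d} := by ext x; simp; tauto
        rw [this] at h4
        have := Finset.card_le_three (a := a) (b := b) (c := d)
        omega
      · have : ({a, b, c, a} : Finset α) = {a, b, c} := by ext x; simp; tauto
        rw [this] at h4
        have := Finset.card_le_three (a := a) (b := b) (c := c)
        omega
      · have : ({a, b, b, d} : Finset α) = {a, b, d} := by ext x; simp
        rw [this] at h4
        have := Finset.card_le_three (a := a) (b := b) (c := d)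
        omega
      · have : ({a, b, c, b} : Finset α) = {a, b, c} := by ext x; simp; tauto
        rw [this] at h4
        have := Finset.card_le_three (a := a) (b := b) (c := c)
        omega
    have h2' : 2 ≤ (({a, b, c, d} : Finset α)ᶜ).card := by
      rw [Finset.card_compl]; omega
    obtain ⟨s, hs, t, ht, hst⟩ := Finset.one_lt_card.1 (by omega : 1 < (({a, b, c, d} : Finset α)ᶜ).card)
    simp only [Finset.mem_compl, Finset.mem_insert, Finset.mem_singleton, not_or] at hs ht
    have e : swap a b * swap c d = (swap a b * swap s t) * (swap s t * swap c d) := by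
      have : swap s t * swap s t = (1 : Perm α) := swap_mul_self s t
      calc swap a b * swap c d = swap a b * (swap s t * swap s t) * swap c d := by rw [this, mul_one]
        _ = _ := by group
    rw [e]
    refine Subgroup.mul_mem _ (Subgroup.subset_closure ?_) (Subgroup.subset_closure ?_)
    · exact mem_DT h1 (Ne.symm hs.1) (Ne.symm ht.1) (Ne.symm hs.2.1) (Ne.symm ht.2.1) hst
    · exact mem_DT hst hs.2.2.1 hs.2.2.2 ht.2.2.1 ht.2.2.2 h2

lemma alt_le (hα : 5 ≤ Fintype.card α) : alternatingGroup α ≤ Subgroup.closure (DT α) := by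
  intro σ hσ
  have hind : ∀ (n : ℕ) (l : List (Perm α)) (_ : ∀ g, g ∈ l → IsSwap g) (_ : l.length = 2 * n),
      l.prod ∈ Subgroup.closure (DT α) := by
    intro n
    induction n with
    | zero =>
      intro l _ hl
      have hl0 : l = [] := List.length_eq_zero_iff.1 (by simpa using hl)
      rw [hl0]
      simp
    | succ n ih =>
      intro l hl hn
      match l, hn with
      | a :: b :: l', hn =>
        obtain ⟨a1, a2, ha, rfl⟩ := hl a (by simp)
        obtain ⟨b1, b2, hb, rfl⟩ := hl b (by simp)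
        rw [List.prod_cons, List.prod_cons, ← mul_assoc]
        refine Subgroup.mul_mem _ (pair_mem hα ha hb) (ih l' (fun g hg => hl g (by simp [hg])) ?_)
        simp at hn; omega
      | [a], hn => simp at hn; omega
      | [], hn => simp at hn
  obtain ⟨l, rfl, hl⟩ := truncSwapFactors σ
  obtain ⟨m, hm⟩ := (prod_list_swap_mem_alternatingGroup_iff_even_length hl).1 hσ
  rw [← two_mul] at hm
  exact hind m l hl hm

end DT

/-- the elements of `A_n` fixing the complement of `U` pointwise are in every subgroup which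
contains all double transpositions of points of `U` -/
lemma fix_mem (U : Finset (Fin n)) (hU : 5 ≤ U.card) (T : Subgroup (Al n))
    (hT : ∀ γ : Fin 4 ↪ Fin n, (∀ i, γ i ∈ U) → psi γ a4 ∈ T) (h : Al n)
    (hh : ∀ x, x ∉ U → (h : Perm (Fin n)) x = x) : h ∈ T := by
  classical
  have h1 : ∀ x, x ∈ U ↔ (h : Perm (Fin n)) x ∈ U := by
    intro x
    constructor
    · intro hx
      by_contra hcon
      have := hh _ hcon
      have := (h : Perm (Fin n)).injective this
      exact hcon (by rw [this]; exact hx)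
    · intro hx
      by_contra hcon
      exact hcon (by rwa [hh x hcon] at hx)
  set h' : Perm {x // x ∈ U} := (h : Perm (Fin n)).subtypePerm (fun x => (h1 x).symm) with hh'
  have e : ofSubtype h' = (h : Perm (Fin n)) :=
    ofSubtype_subtypePerm _ (fun x hx => by by_contra hc; exact hx (hh x hc))
  have hs : h' ∈ alternatingGroup {x // x ∈ U} := by
    rw [mem_alternatingGroup, ← sign_ofSubtype h', e]
    exact mem_alternatingGroup.1 h.2
  have hcard : 5 ≤ Fintype.card {x // x ∈ U} := by simpa using hU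
  have h2 := alt_le hcard hs
  have h3 : Subgroup.closure (DT {x // x ∈ U}) ≤ (T.map (alternatingGroup (Fin n)).subtype).comap
      (ofSubtype : Perm {x // x ∈ U} →* Perm (Fin n)) := by
    rw [Subgroup.closure_le]
    rintro σ ⟨γ, rfl⟩
    rw [SetLike.mem_coe, Subgroup.mem_comap, Subgroup.mem_map]
    refine ⟨psi (γ.trans (Function.Embedding.subtype _)) a4, hT _ (fun i => (γ i).2), ?_⟩
    rw [map_mul, ofSubtype_swap_eq, ofSubtype_swap_eq]
    refine Equiv.ext fun x => ?_
    set γ' : Fin 4 ↪ Fin n := γ.trans (Function.Embedding.subtype _) with hγ'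
    by_cases hx : ∃ i, x = γ' i
    · obtain ⟨i, rfl⟩ := hx
      change (psi γ' a4 : Perm (Fin n)) (γ' i) = _
      rw [psi_image]
      have e1 : ((swap (γ 0 : Fin n) (γ 1 : Fin n) * swap (γ 2 : Fin n) (γ 3 : Fin n)) : Perm (Fin n))
          (γ' i) = γ' ((swap 0 1 * swap 2 3 : Perm (Fin 4)) i) := by
        change (swap (γ' 0) (γ' 1) * swap (γ' 2) (γ' 3) : Perm (Fin n)) (γ' i) = _
        rw [Perm.mul_apply, Perm.mul_apply, γ'.injective.swap_apply, γ'.injective.swap_apply]
      rw [e1]
      rfl
    · push Not at hx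
      change (psi γ' a4 : Perm (Fin n)) x = _
      rw [psi_out _ _ _ hx]
      change x = (swap (γ' 0) (γ' 1) * swap (γ' 2) (γ' 3) : Perm (Fin n)) x
      rw [Perm.mul_apply, swap_apply_of_ne_of_ne (hx 2) (hx 3), swap_apply_of_ne_of_ne (hx 0) (hx 1)]
  have h4 := h3 h2
  rw [Subgroup.mem_comap, e, Subgroup.mem_map] at h4
  obtain ⟨g, hg, hg'⟩ := h4
  have : g = h := Subtype.ext hg'
  rwa [← this]

end Pool.Agent.X233.AltRep
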