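import Pool.Agent.X233.AltRep.Rep
import Pool.Agent.H14R2.RC.Defs

set_option autoImplicit false

namespace Pool.Agent.X233.AltRep
open Equiv Equiv.Perm Finset RC14
open scoped InnerProductSpace RealInnerProductSpace

variable {n : ℕ} {V : Type*} [NormedAddCommGroup V] [InnerProductSpace ℝ V]

/-- the underlying linear representation -/
def lin (ρ : Alt n →* (V ≃ₗᵢ[ℝ] V)) : Al n →* Module.End ℝ V where
  toFun g := ((ρ g).toLinearEquiv : V →ₗ[ℝ] V)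
  map_one' := by ext v; simp
  map_mul' g h := by ext v; simp

lemma lin_apply (ρ : Alt n →* (V ≃ₗᵢ[ℝ] V)) (g : Alt n) (v : V) : lin ρ g v = ρ g v := rfl

/-- the averaging operator of the walk -/
noncomputable def Mop (ρ : Alt n →* (V ≃ₗᵢ[ℝ] V)) {k : ℕ} (x : Fin k → Alt n) : Module.End ℝ V :=
  (1 / (2 * (k : ℝ))) • ∑ i, (lin ρ (x i) + lin ρ (x i)⁻¹)

lemma Mop_apply (ρ : Alt n →* (V ≃ₗᵢ[ℝ] V)) {k : ℕ} (x : Fin k → Alt n) (v : V) :
    Mop ρ x v = (1 / (2 * (k : ℝ))) • ∑ i, (ρ (x i) v + ρ (x i)⁻¹ v) := by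
  simp [Mop, LinearMap.sum_apply, lin_apply]

lemma inner_inv (ρ : Alt n →* (V ≃ₗᵢ[ℝ] V)) (g : Alt n) (a b : V) :
    ⟪ρ g a, b⟫_ℝ = ⟪a, ρ g⁻¹ b⟫_ℝ := by
  rw [← (ρ g⁻¹).inner_map_map (ρ g a) b]
  congr 1
  have := congrArg (fun e : V ≃ₗᵢ[ℝ] V => e a) (map_mul ρ g⁻¹ g)
  simpa using this.symm

lemma Mop_symm (ρ : Alt n →* (V ≃ₗᵢ[ℝ] V)) {k : ℕ} (x : Fin k → Alt n) (a b : V) :
    ⟪Mop ρ x a, b⟫_ℝ = ⟪a, Mop ρ x b⟫_ℝ := by
  rw [Mop_apply, Mop_apply, real_inner_smul_left, real_inner_smul_right, sum_inner, inner_sum]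
  congr 1
  refine Finset.sum_congr rfl fun i _ => ?_
  rw [inner_add_left, inner_add_right, inner_inv, inner_inv ρ (x i)⁻¹, inv_inv, add_comm]

/-- an eigenvalue of the averaging operator on a small representation without invariant vectors is
at most `1 - ε` if the walk on `A_n` has gap `ε` on the functions of low level -/
lemma eig_le {k m t : ℕ} {x : Fin k → Alt n} {ε : ℝ}
    (hgap : ∀ f ∈ lowLevel n m, ∑ g, f g = 0 →
      ∑ g, f g * walk x f g ≤ (1 - ε) * ∑ g, f g ^ 2)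
    (hm : 4 * t ≤ m) (hn : 4 * t + 5 ≤ n)
    (ρ : Alt n →* (V ≃ₗᵢ[ℝ] V)) (W : Submodule ℝ V) [FiniteDimensional ℝ W]
    (hW : ∀ g : Alt n, ∀ w ∈ W, ρ g w ∈ W)
    (hinv : ∀ w ∈ W, (∀ g, ρ g w = w) → w = 0)
    (hd : Module.finrank ℝ W < 2 ^ (t + 1)) (v : V) (hv : v ∈ W) (hv0 : v ≠ 0) (lam : ℝ)
    (hl : Mop ρ x v = lam • v) : lam ≤ 1 - ε := by
  set U : Submodule ℝ V := Submodule.span ℝ (Set.range fun g : Alt n => ρ g v) with hU
  have hvU : v ∈ U := Submodule.subset_span ⟨1, by simp⟩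
  have hUW : U ≤ W := by
    rw [hU, Submodule.span_le]
    rintro _ ⟨g, rfl⟩
    exact hW g v hv
  have hUinv : ∀ g : Al n, ∀ w ∈ U, lin ρ g w ∈ U := by
    intro g w hw
    have h1 : U ≤ U.comap (lin ρ g) := by
      rw [hU, Submodule.span_le]
      rintro _ ⟨h, rfl⟩
      refine Submodule.subset_span ⟨g * h, ?_⟩
      change ρ (g * h) v = ρ g (ρ h v)
      rw [map_mul]; rfl
    exact h1 hw
  have : FiniteDimensional ℝ U := Submodule.finiteDimensional_of_le hUW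
  obtain ⟨K, hK, u, hu, hu0, hfix⟩ := exists_fixed (lin ρ) U hUinv
    (fun h => hv0 (by simpa [h] using hvU)) t hn ((Submodule.finrank_mono hUW).trans_lt hd)
  set f : Alt n → ℝ := fun g => ⟪u, ρ g v⟫_ℝ with hf
  have hf0 : ∃ g, f g ≠ 0 := by
    by_contra hc
    push Not at hc
    have h1 : U ≤ (Submodule.span ℝ {u})ᗮ := by
      rw [hU, Submodule.span_le]
      rintro _ ⟨g, rfl⟩
      rw [SetLike.mem_coe, Submodule.mem_orthogonal_singleton_iff_inner_right]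
      exact hc g
    have h2 := h1 hu
    rw [Submodule.mem_orthogonal_singleton_iff_inner_right] at h2
    exact hu0 (inner_self_eq_zero.1 h2)
  have hlow : f ∈ lowLevel n m := by
    refine Submodule.subset_span ⟨K, hK.trans hm, fun h g hh => ?_⟩
    change ⟪u, ρ (h * g) v⟫_ℝ = ⟪u, ρ g v⟫_ℝ
    have h1 : ρ (h * g) v = ρ h (ρ g v) := by rw [map_mul]; rfl
    rw [h1]
    have h2 : ρ h u = u := hfix h hh
    conv_lhs => rw [← h2]
    exact (ρ h).inner_map_map _ _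
  have hsum : ∑ g, f g = 0 := by
    rw [hf, ← inner_sum]
    have h1 : ∑ g : Alt n, ρ g v = 0 := by
      refine hinv _ (W.sum_mem fun g _ => hW g v hv) fun h => ?_
      rw [map_sum]
      have : ∀ g, ρ h (ρ g v) = ρ (h * g) v := fun g => by rw [map_mul]; rfl
      simp_rw [this]
      exact Equiv.sum_comp (Equiv.mulLeft h) fun g => ρ g v
    rw [h1, inner_zero_right]
  have hwalk : ∀ g, walk x f g = lam * f g := by
    intro g
    have h1 : lam * f g = ⟪u, ρ g (Mop ρ x v)⟫_ℝ := by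
      rw [hl, map_smul, real_inner_smul_right]
    rw [h1, Mop_apply, map_smul, map_sum, real_inner_smul_right, inner_sum, walk, one_div,
      div_eq_inv_mul]
    congr 1
    refine Finset.sum_congr rfl fun i _ => ?_
    rw [map_add, inner_add_right]
    change ⟪u, ρ (g * x i) v⟫_ℝ + ⟪u, ρ (g * (x i)⁻¹) v⟫_ℝ = _
    rw [map_mul, map_mul]; rfl
  have hpos : 0 < ∑ g, f g ^ 2 := by
    obtain ⟨g, hg⟩ := hf0
    exact Finset.sum_pos' (fun _ _ => sq_nonneg _) ⟨g, Finset.mem_univ _, by positivity⟩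
  have h := hgap f hlow hsum
  have e : ∑ g, f g * walk x f g = lam * ∑ g, f g ^ 2 := by
    rw [Finset.mul_sum]
    exact Finset.sum_congr rfl fun g _ => by rw [hwalk]; ring
  rw [e] at h
  exact le_of_mul_le_mul_right h hpos

/-- the gap on a small invariant subspace without invariant vectors -/
theorem gap_small {k m t : ℕ} {x : Fin k → Alt n} {ε : ℝ}
    (hgap : ∀ f ∈ lowLevel n m, ∑ g, f g = 0 →
      ∑ g, f g * walk x f g ≤ (1 - ε) * ∑ g, f g ^ 2)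
    (hm : 4 * t ≤ m) (hn : 4 * t + 5 ≤ n)
    (ρ : Alt n →* (V ≃ₗᵢ[ℝ] V)) (W : Submodule ℝ V) [FiniteDimensional ℝ W]
    (hW : ∀ g : Alt n, ∀ w ∈ W, ρ g w ∈ W)
    (hinv : ∀ w ∈ W, (∀ g, ρ g w = w) → w = 0)
    (hd : Module.finrank ℝ W < 2 ^ (t + 1)) (v : V) (hv : v ∈ W) :
    ⟪v, Mop ρ x v⟫_ℝ ≤ (1 - ε) * ‖v‖ ^ 2 := by
  have hMW : ∀ w ∈ W, Mop ρ x w ∈ W := by
    intro w hw
    rw [Mop_apply]
    exact W.smul_mem _ (W.sum_mem fun i _ => W.add_mem (hW _ _ hw) (hW _ _ hw))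
  set T : W →ₗ[ℝ] W := (Mop ρ x).restrict hMW with hT
  have hTs : T.IsSymmetric := fun a b => Mop_symm ρ x a b
  set b := hTs.eigenvectorBasis rfl with hb
  set lam := hTs.eigenvalues rfl with hlam
  have hle : ∀ i, lam i ≤ 1 - ε := by
    intro i
    have h1 : T (b i) = lam i • b i := hTs.apply_eigenvectorBasis rfl i
    refine eig_le hgap hm hn ρ W hW hinv hd (b i : V) (b i).2 ?_ (lam i) ?_
    · intro h0
      have h2 : ‖b i‖ = 1 := b.orthonormal.1 i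
      rw [Submodule.coe_eq_zero.1 h0, norm_zero] at h2
      exact zero_ne_one h2
    · exact congrArg Subtype.val h1
  set w : W := ⟨v, hv⟩ with hw
  have e1 : ⟪v, Mop ρ x v⟫_ℝ = ∑ i, ⟪w, b i⟫_ℝ * ⟪b i, T w⟫_ℝ :=
    (b.sum_inner_mul_inner w (T w)).symm
  have e2 : ‖v‖ ^ 2 = ∑ i, ⟪w, b i⟫_ℝ * ⟪b i, w⟫_ℝ := by
    rw [b.sum_inner_mul_inner w w, real_inner_self_eq_norm_sq]
    rfl
  rw [e1, e2, Finset.mul_sum]
  refine Finset.sum_le_sum fun i _ => ?_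
  have h3 : ⟪b i, T w⟫_ℝ = lam i * ⟪b i, w⟫_ℝ := by
    rw [← hTs, hTs.apply_eigenvectorBasis, real_inner_smul_left]
    rfl
  rw [h3, real_inner_comm (b i) w]
  have h4 : ⟪b i, w⟫_ℝ * (lam i * ⟪b i, w⟫_ℝ) = lam i * ⟪b i, w⟫_ℝ ^ 2 := by ring
  have h5 : (1 - ε) * (⟪b i, w⟫_ℝ * ⟪b i, w⟫_ℝ) = (1 - ε) * ⟪b i, w⟫_ℝ ^ 2 := by ring
  rw [h4, h5]
  exact mul_le_mul_of_nonneg_right (hle i) (sq_nonneg _)

end Pool.Agent.X233.AltRep
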