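import Pool.Agent.X233.AltRep.Fix

set_option autoImplicit false

namespace Pool.Agent.X233.AltRep
open Equiv Equiv.Perm Finset

variable {n : ℕ} {V : Type*} [AddCommGroup V] [Module ℝ V]

/-- `v` has the type `(+,-)` for the two double transpositions of `γ` -/
def Ty (ρ : Al n →* Module.End ℝ V) (γ : Fin 4 ↪ Fin n) (v : V) : Prop :=
  ρ (psi γ a4) v = v ∧ ρ (psi γ b4) v = -v

lemma act_mul (ρ : Al n →* Module.End ℝ V) (g h : Al n) (v : V) : ρ (g * h) v = ρ g (ρ h v) := by
  rw [map_mul]; rfl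

lemma act_one (ρ : Al n →* Module.End ℝ V) (v : V) : ρ 1 v = v := by
  rw [map_one]; rfl

lemma Ty.comm {ρ : Al n →* Module.End ℝ V} {γ γ' : Fin 4 ↪ Fin n} (h : ∀ i j, γ i ≠ γ' j) {v : V}
    (hv : Ty ρ γ v) (g : alternatingGroup (Fin 4)) : Ty ρ γ (ρ (psi γ' g) v) := by
  constructor
  · rw [← act_mul, psi_comm h, act_mul, hv.1]
  · rw [← act_mul, psi_comm h, act_mul, hv.2, map_neg]

/-- the subspace of the vectors of type `(+,-)` -/
def TyS (ρ : Al n →* Module.End ℝ V) (γ : Fin 4 ↪ Fin n) : Submodule ℝ V where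
  carrier := {v | Ty ρ γ v}
  zero_mem' := by simp [Ty]
  add_mem' := by
    rintro a b ⟨h1, h2⟩ ⟨h3, h4⟩
    exact ⟨by rw [map_add, h1, h3], by rw [map_add, h2, h4]; abel⟩
  smul_mem' := by
    rintro c a ⟨h1, h2⟩
    exact ⟨by rw [map_smul, h1], by rw [map_smul, h2, smul_neg]⟩

lemma mem_TyS {ρ : Al n →* Module.End ℝ V} {γ : Fin 4 ↪ Fin n} {v : V} :
    v ∈ TyS ρ γ ↔ Ty ρ γ v := Iff.rfl

lemma dim_ge (ρ : Al n →* Module.End ℝ V) (t : ℕ) : ∀ (β : ℕ → (Fin 4 ↪ Fin n))
    (_ : ∀ i < t, ∀ j < t, i ≠ j → ∀ p q, β i p ≠ β j q) (W : Submodule ℝ V)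
    [FiniteDimensional ℝ W]
    (_ : ∀ i < t, ∀ g, ∀ w ∈ W, ρ (psi (β i) g) w ∈ W) (v : V) (_ : v ∈ W) (_ : v ≠ 0)
    (_ : ∀ i < t, Ty ρ (β i) v), 2 ^ t ≤ Module.finrank ℝ W := by
  induction t with
  | zero =>
    intro β _ W _ _ v hv hv0 _
    have : Nontrivial W := ⟨⟨⟨v, hv⟩, 0, fun h => hv0 (congrArg Subtype.val h)⟩⟩
    simpa using Nat.one_le_iff_ne_zero.2 (Module.finrank_pos (R := ℝ) (M := W)).ne'
  | succ t ih =>
    intro β hβ W _ hW v hv hv0 hT
    set W' : Submodule ℝ V := W ⊓ TyS ρ (β t) with hW'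
    have : FiniteDimensional ℝ W' := Submodule.finiteDimensional_of_le inf_le_left
    have h1 : 2 ^ t ≤ Module.finrank ℝ W' := by
      refine ih β (fun i hi j hj => hβ i (by omega) j (by omega)) W' ?_ v ⟨hv, hT t (by omega)⟩ hv0
        (fun i hi => hT i (by omega))
      rintro i hi g w ⟨hw1, hw2⟩
      exact ⟨hW i (by omega) g w hw1, Ty.comm (fun p q => hβ t (by omega) i (by omega)
        (by omega) p q) hw2 g⟩
    set z : Module.End ℝ V := ρ (psi (β t) z4) with hz
    have hzi : Function.Injective z := by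
      intro a b hab
      have := congrArg (ρ (psi (β t) z4)⁻¹) hab
      rwa [← act_mul, ← act_mul, inv_mul_cancel, act_one, act_one] at this
    have h2 : W'.map z ≤ W := by
      rintro _ ⟨w, hw, rfl⟩
      exact hW t (by omega) _ w hw.1
    have h3 : W' ⊓ W'.map z = ⊥ := by
      rw [eq_bot_iff]
      rintro x ⟨⟨_, hx⟩, ⟨u, ⟨_, hu⟩, rfl⟩⟩
      have e1 : ρ (psi (β t) a4) (z u) = -(z u) := by
        rw [hz, ← act_mul, ← map_mul (psi (β t)), az4, map_mul (psi (β t)), map_mul (psi (β t)),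
          act_mul, act_mul, hu.2, map_neg, hu.1, map_neg]
      have e2 : ρ (psi (β t) a4) (z u) = z u := hx.1
      rw [e1] at e2
      have : (2 : ℝ) • z u = 0 := by
        rw [two_smul]
        nth_rewrite 1 [← e2]
        abel
      rw [Submodule.mem_bot]
      exact (smul_eq_zero.1 this).resolve_left (by norm_num)
    have : FiniteDimensional ℝ (W'.map z) := Submodule.finiteDimensional_of_le h2
    have h4 : Module.finrank ℝ (W'.map z) = Module.finrank ℝ W' :=
      LinearMap.finrank_map_eq' (f := z) hzi W'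
    have h5 := Submodule.finrank_sup_add_finrank_inf_eq W' (W'.map z)
    rw [h3, finrank_bot, h4] at h5
    have h6 : Module.finrank ℝ ↥(W' ⊔ W'.map z) ≤ Module.finrank ℝ W :=
      Submodule.finrank_mono (sup_le inf_le_left h2)
    rw [pow_succ]
    omega
  where
  LinearMap.finrank_map_eq' {f : V →ₗ[ℝ] V} (hf : Function.Injective f) (p : Submodule ℝ V) :
      Module.finrank ℝ (p.map f) = Module.finrank ℝ p :=
    (LinearEquiv.finrank_eq (Submodule.equivMapOfInjective f hf p)).symm

/-- a vector moved by a double transposition gives a vector of type `(+,-)` -/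
lemma extend_type (ρ : Al n →* Module.End ℝ V) (W : Submodule ℝ V)
    (hW : ∀ g : Al n, ∀ w ∈ W, ρ g w ∈ W) (γ : Fin 4 ↪ Fin n) (v : V) (hv : v ∈ W)
    (hne : ρ (psi γ a4) v ≠ v) :
    ∃ v' ∈ W, v' ≠ 0 ∧ Ty ρ γ v' ∧
      ∀ γ' : Fin 4 ↪ Fin n, (∀ i j, γ' i ≠ γ j) → Ty ρ γ' v → Ty ρ γ' v' := by
  have haa : ∀ w, ρ (psi γ a4) (ρ (psi γ a4) w) = w := fun w => by
    rw [← act_mul, ← map_mul, a4_sq, map_one, act_one]
  have hbb : ∀ w, ρ (psi γ b4) (ρ (psi γ b4) w) = w := fun w => by
    rw [← act_mul, ← map_mul, b4_sq, map_one, act_one]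
  have hab : ∀ w, ρ (psi γ a4) (ρ (psi γ b4) w) = ρ (psi γ b4) (ρ (psi γ a4) w) := fun w => by
    rw [← act_mul, ← act_mul, ← map_mul, ← map_mul, ab4]
  have haz : ∀ w, ρ (psi γ a4) (ρ (psi γ z4) w) =
      ρ (psi γ z4) (ρ (psi γ a4) (ρ (psi γ b4) w)) := fun w => by
    rw [← act_mul, ← map_mul (psi γ), az4, map_mul (psi γ), map_mul (psi γ), act_mul, act_mul]
  have hbz : ∀ w, ρ (psi γ b4) (ρ (psi γ z4) w) = ρ (psi γ z4) (ρ (psi γ a4) w) := fun w => by
    rw [← act_mul, ← act_mul, ← map_mul, ← map_mul, za4]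
  have hzinj : ∀ w, ρ (psi γ z4) w = 0 → w = 0 := fun w h => by
    have := congrArg (ρ (psi γ z4)⁻¹) h
    rwa [← act_mul, inv_mul_cancel, act_one, map_zero] at this
  set A := ρ (psi γ a4) with hA
  set B := ρ (psi γ b4) with hB
  set Z := ρ (psi γ z4) with hZ
  set u : V := v - A v with hu
  have hu0 : u ≠ 0 := fun h => hne (sub_eq_zero.1 h).symm
  have hAu : A u = -u := by rw [hu, map_sub, haa]; abel
  have huW : u ∈ W := W.sub_mem hv (hW _ _ hv)
  have hcomm : ∀ γ' : Fin 4 ↪ Fin n, (∀ i j, γ' i ≠ γ j) → Ty ρ γ' v → Ty ρ γ' u := by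
    intro γ' h hT
    exact (TyS ρ γ').sub_mem hT (hT.comm h a4)
  by_cases hm : u - B u = 0
  · -- `B u = u`
    have hBu : B u = u := (sub_eq_zero.1 hm).symm
    have h1 : A (Z u) = -(Z u) := by rw [haz, hBu, hAu, map_neg]
    have h2 : B (Z u) = -(Z u) := by rw [hbz, hAu, map_neg]
    refine ⟨Z (Z u), hW _ _ (hW _ _ huW), fun h => hu0 (hzinj _ (hzinj _ h)), ⟨?_, ?_⟩, ?_⟩
    · change A (Z (Z u)) = _
      rw [haz, h2, map_neg, h1]; simp
    · change B (Z (Z u)) = _
      rw [hbz, h1, map_neg]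
    · intro γ' h hT
      exact ((hcomm γ' h hT).comm h z4).comm h z4
  · set w : V := u - B u with hw
    have h1 : A w = -w := by rw [hw, map_sub, hab, hAu, map_neg]; abel
    have h2 : B w = -w := by rw [hw, map_sub, hbb]; abel
    have hwW : w ∈ W := W.sub_mem huW (hW _ _ huW)
    refine ⟨Z w, hW _ _ hwW, fun h => hm (hzinj _ h), ⟨?_, ?_⟩, ?_⟩
    · change A (Z w) = _
      rw [haz, h2, map_neg, h1]; simp
    · change B (Z w) = _
      rw [hbz, h1, map_neg]
    · intro γ' h hT
      have h3 : Ty ρ γ' w := (TyS ρ γ').sub_mem (hcomm γ' h hT) ((hcomm γ' h hT).comm h b4)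
      exact h3.comm h z4

/-- a subrepresentation of dimension less than `2 ^ (t + 1)` has a nonzero vector which is fixed by
the pointwise stabiliser of at most `4 t` points -/
theorem exists_fixed (ρ : Al n →* Module.End ℝ V) (W : Submodule ℝ V) [FiniteDimensional ℝ W]
    (hW : ∀ g : Al n, ∀ w ∈ W, ρ g w ∈ W) (hW0 : W ≠ ⊥) (t : ℕ) (hn : 4 * t + 5 ≤ n)
    (hd : Module.finrank ℝ W < 2 ^ (t + 1)) :
    ∃ K : Finset (Fin n), K.card ≤ 4 * t ∧ ∃ v ∈ W, v ≠ 0 ∧
      ∀ h : Al n, (∀ a ∈ K, (h : Perm (Fin n)) a = a) → ρ h v = v := by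
  by_contra hcon
  push Not at hcon
  have key : ∀ s ≤ t + 1, ∃ β : ℕ → (Fin 4 ↪ Fin n),
      (∀ i < s, ∀ j < s, i ≠ j → ∀ p q, β i p ≠ β j q) ∧
      ∃ v ∈ W, v ≠ 0 ∧ ∀ i < s, Ty ρ (β i) v := by
    intro s
    induction s with
    | zero =>
      intro _
      obtain ⟨v, hv, hv0⟩ := Submodule.exists_mem_ne_zero_of_ne_bot hW0
      exact ⟨fun _ => Fin.castLEEmb (by omega), by simp, v, hv, hv0, by simp⟩
    | succ s ih =>
      intro hs
      obtain ⟨β, hβ, v, hv, hv0, hT⟩ := ih (by omega)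
      set K : Finset (Fin n) := (Finset.range s).biUnion fun i => Finset.univ.map (β i) with hK
      have hKc : K.card ≤ 4 * s := by
        refine Finset.card_biUnion_le.trans ?_
        simp [mul_comm]
      have hmem : ∀ x, x ∈ K ↔ ∃ i < s, ∃ p, β i p = x := by
        intro x; simp [hK]
      obtain ⟨h, hh, hne⟩ := hcon K (hKc.trans (by omega)) v hv hv0
      -- some double transposition outside of K moves v
      have h1 : ∃ γ : Fin 4 ↪ Fin n, (∀ i, γ i ∈ Kᶜ) ∧ ρ (psi γ a4) v ≠ v := by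
        by_contra hc
        push Not at hc
        let T : Subgroup (Al n) :=
          { carrier := {g | ρ g v = v}
            mul_mem' := by
              intro a b ha hb
              change ρ (a * b) v = v
              rw [act_mul, hb, ha]
            one_mem' := act_one ρ v
            inv_mem' := by
              intro a ha
              change ρ a⁻¹ v = v
              conv_lhs => rw [← (show ρ a v = v from ha)]
              rw [← act_mul, inv_mul_cancel, act_one] }
        have h2 : h ∈ T := by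
          refine fix_mem Kᶜ ?_ T (fun γ hγ => hc γ hγ) h ?_
          · rw [Finset.card_compl, Fintype.card_fin]; omega
          · intro x hx
            exact hh x (by simpa using hx)
        exact hne h2
      obtain ⟨γ, hγ, hγne⟩ := h1
      have hdis : ∀ i < s, ∀ p q, β i p ≠ γ q := by
        intro i hi p q h
        have := hγ q
        rw [Finset.mem_compl, hmem] at this
        exact this ⟨i, hi, p, h⟩
      obtain ⟨v', hv'W, hv'0, hv'T, hv'2⟩ := extend_type ρ W hW γ v hv hγne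
      refine ⟨Function.update β s γ, ?_, v', hv'W, hv'0, ?_⟩
      · intro i hi j hj hij p q
        by_cases h1 : i = s
        · subst h1
          rw [Function.update_self, Function.update_of_ne (Ne.symm hij)]
          exact (hdis j (by omega) q p).symm
        · rw [Function.update_of_ne h1]
          by_cases h2 : j = s
          · subst h2
            rw [Function.update_self]
            exact hdis i (by omega) p q
          · rw [Function.update_of_ne h2]
            exact hβ i (by omega) j (by omega) hij p q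
      · intro i hi
        by_cases h1 : i = s
        · subst h1
          rw [Function.update_self]
          exact hv'T
        · rw [Function.update_of_ne h1]
          exact hv'2 _ (hdis i (by omega)) (hT i (by omega))
  obtain ⟨β, hβ, v, hv, hv0, hT⟩ := key (t + 1) le_rfl
  have := dim_ge ρ (t + 1) β hβ W (fun i _ g w hw => hW _ w hw) v hv hv0 hT
  omega

end Pool.Agent.X233.AltRep
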